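import Pool.Agent.helper96.SV.SpecA

set_option autoImplicit false

namespace Pool.Agent.SVA

open Polynomial Module Filter Topology

theorem MU2_ten {K : Type} [Fintype K] [DecidableEq K] {m : K → ℕ} (s : ℂ) (y : Py m) :
    ten (fun i => s • y i) = s ^ Fintype.card K • ten y := by
  funext β
  simp only [ten, Pi.smul_apply, smul_eq_mul, Finset.prod_mul_distrib, Finset.prod_const,
    Finset.card_univ]

theorem MU2_Th {K : Type} [Fintype K] [DecidableEq K] {m : K → ℕ} (s : ℂ) (φ z : Bx m → ℂ)
    (a b : Py m) (i : K) :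
    Th φ z (fun i => s • a i) b i = s ^ (Fintype.card K - 1) * Th φ z a b i := by
  unfold Th
  rw [Finset.mul_sum]
  refine Finset.sum_congr rfl fun β _ => ?_
  rw [Finset.mul_sum]
  refine Finset.sum_congr rfl fun γ _ => ?_
  split_ifs
  · have h : ∏ i' ∈ Finset.univ.erase i, (s • a i') (β i') * b i' (γ i') =
        s ^ (Fintype.card K - 1) * ∏ i' ∈ Finset.univ.erase i, a i' (β i') * b i' (γ i') := by
      simp only [Pi.smul_apply, smul_eq_mul, mul_assoc]
      rw [Finset.prod_mul_distrib, Finset.prod_const, Finset.card_erase_of_mem (Finset.mem_univ i),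
        Finset.card_univ]
    rw [h]; ring
  · ring

theorem MU2 (hMU1 : MU1_stmt) : MU2_stmt := by
  intro K _ _ m hK hm φ z hφ hz
  obtain ⟨a, b, hab, ha, hb⟩ := hMU1 hm φ z hφ hz
  have hbi : ∀ i, b i ≠ 0 := by
    intro i hi
    apply hb
    have : ten b = 0 := by
      funext β
      simp only [ten, Pi.zero_apply]
      exact Finset.prod_eq_zero (Finset.mem_univ i) (by rw [hi]; rfl)
    rw [this, pr_zero_left]
  have hu : ∀ i, ∃ u : Fin (m i + 1) → ℂ, ∑ j, b i j * u j = 1 := by
    intro i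
    obtain ⟨j, hj⟩ := Function.ne_iff.1 (hbi i)
    refine ⟨Pi.single j (b i j)⁻¹, ?_⟩
    rw [Finset.sum_eq_single j]
    · rw [Pi.single_eq_same, mul_inv_cancel₀ hj]
    · intro k _ hk
      rw [Pi.single_eq_of_ne hk, mul_zero]
    · intro h; exact absurd (Finset.mem_univ j) h
  choose u hu using hu
  let as : ℂ → Py m := fun s i => a i + s • u i
  let Φ : ℂ → ℂ := fun s => (2 - (Fintype.card K : ℂ)) * (pr φ (ten (as s)) * pr (ten b) z) +
    ∑ i, s * Th φ z (as s) b i
  have hcont : Continuous Φ := by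
    simp only [Φ, as, pr, ten, Th, Pi.add_apply, Pi.smul_apply, smul_eq_mul]
    refine Continuous.add (by fun_prop) ?_
    refine continuous_finsetSum _ fun i _ => ?_
    refine Continuous.mul continuous_id ?_
    refine continuous_finsetSum _ fun β _ => ?_
    refine continuous_finsetSum _ fun γ _ => ?_
    split_ifs
    · fun_prop
    · fun_prop
  have hΦ0 : Φ 0 ≠ 0 := by
    have has : as 0 = a := by
      funext i
      simp [as]
    simp only [Φ, has, zero_mul, Finset.sum_const_zero, add_zero]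
    refine mul_ne_zero ?_ (mul_ne_zero ha hb)
    intro h
    have h2 : (Fintype.card K : ℂ) = 2 := by linear_combination -h
    have h3 : Fintype.card K = 2 := by exact_mod_cast h2
    omega
  have hev : ∀ᶠ s in 𝓝[≠] (0 : ℂ), Φ s ≠ 0 :=
    (hcont.continuousAt.eventually_ne hΦ0).filter_mono nhdsWithin_le_nhds
  obtain ⟨s, hs, hs0⟩ := (hev.and (self_mem_nhdsWithin)).exists
  have hs0' : s ≠ 0 := hs0
  refine ⟨fun i => s⁻¹ • as s i, b, ?_, ?_⟩
  · intro i
    have h1 : ∑ j, b i j * (s⁻¹ • as s i) j =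
        s⁻¹ * (∑ j, b i j * a i j + s * ∑ j, b i j * u i j) := by
      rw [Finset.mul_sum, ← Finset.sum_add_distrib, Finset.mul_sum]
      refine Finset.sum_congr rfl fun j _ => ?_
      simp only [as, Pi.smul_apply, Pi.add_apply, smul_eq_mul]
      ring
    rw [h1, hab i, hu i]
    field_simp
    ring
  · have hcard : (s⁻¹) ^ (Fintype.card K - 1) = (s⁻¹) ^ Fintype.card K * s := by
      obtain ⟨k, hk⟩ : ∃ k, Fintype.card K = k + 1 := ⟨Fintype.card K - 1, by omega⟩
      rw [hk, Nat.add_sub_cancel, pow_succ, mul_assoc, inv_mul_cancel₀ hs0', mul_one]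
    have h1 : (2 - (Fintype.card K : ℂ)) * (pr φ (ten (fun i => s⁻¹ • as s i)) * pr (ten b) z) +
        ∑ i, Th φ z (fun i => s⁻¹ • as s i) b i = (s⁻¹) ^ Fintype.card K * Φ s := by
      rw [MU2_ten, pr_smul_right]
      simp only [MU2_Th, hcard, Φ]
      rw [mul_add, Finset.mul_sum]
      congr 1
      · ring
      · exact Finset.sum_congr rfl fun i _ => by ring
    rw [h1]
    exact mul_ne_zero (pow_ne_zero _ (inv_ne_zero hs0')) hs

end Pool.Agent.SVA
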