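import Pool.Agent.helper96.SV.SpecA

set_option autoImplicit false

namespace Pool.Agent.SVA

open Polynomial Module

theorem MU3 : MU3_stmt := by
  intro n a b hab
  let φ : (Fin (n + 1) → ℂ) →ₗ[ℂ] ℂ :=
    { toFun := fun x => ∑ j, b j * x j
      map_add' := fun x y => by simp [mul_add, Finset.sum_add_distrib]
      map_smul' := fun s x => by
        simp only [Pi.smul_apply, smul_eq_mul, RingHom.id_apply, Finset.mul_sum]
        exact Finset.sum_congr rfl fun j _ => by ring }
  have hφa : φ a = 1 := hab
  have hφ : ∀ x, φ x = ∑ j, b j * x j := fun _ => rfl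
  have hsurj : LinearMap.range φ = ⊤ := by
    rw [LinearMap.range_eq_top]
    intro c
    exact ⟨c • a, by rw [map_smul, hφa, smul_eq_mul, mul_one]⟩
  have hker : finrank ℂ (LinearMap.ker φ) = n := by
    have h := LinearMap.finrank_range_add_finrank_ker φ
    rw [hsurj, finrank_top, finrank_self, finrank_fin_fun] at h
    omega
  let v : Basis (Fin n) ℂ (LinearMap.ker φ) := finBasisOfFinrankEq ℂ _ hker
  let w : Fin (n + 1) → (Fin (n + 1) → ℂ) := Fin.cons a (fun i => (v i : Fin (n + 1) → ℂ))
  have hw : LinearIndependent ℂ w := by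
    rw [linearIndependent_fin_cons]
    refine ⟨?_, ?_⟩
    · exact v.linearIndependent.map' (LinearMap.ker φ).subtype (Submodule.ker_subtype _)
    · intro h
      have h2 : Submodule.span ℂ (Set.range fun i => (v i : Fin (n + 1) → ℂ)) ≤ LinearMap.ker φ := by
        rw [Submodule.span_le]
        rintro _ ⟨i, rfl⟩
        exact (v i).2
      have h3 := h2 h
      rw [LinearMap.mem_ker, hφa] at h3
      exact one_ne_zero h3
  let g : Matrix (Fin (n + 1)) (Fin (n + 1)) ℂ := Matrix.of fun i j => w j i
  have hg : IsUnit g := by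
    rw [← Matrix.linearIndependent_cols_iff_isUnit]
    exact hw
  have hdet : IsUnit g.det := (Matrix.isUnit_iff_isUnit_det g).1 hg
  refine ⟨g, hdet, fun j => rfl, ?_⟩
  have hbg : Matrix.vecMul b g = Pi.single 0 1 := by
    funext j
    have h1 : Matrix.vecMul b g j = φ (w j) := rfl
    rw [h1]
    refine Fin.cases ?_ (fun i => ?_) j
    · rw [Pi.single_eq_same]; exact hφa
    · rw [Pi.single_eq_of_ne (Fin.succ_ne_zero i)]
      exact (v i).2
  have h2 : b = Matrix.vecMul (Pi.single 0 1) g⁻¹ := by
    rw [← hbg, Matrix.vecMul_vecMul, Matrix.mul_nonsing_inv _ hdet, Matrix.vecMul_one]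
  intro j
  conv_rhs => rw [h2]
  rw [Matrix.single_one_vecMul]
  rfl

end Pool.Agent.SVA
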